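import Mathlib
import Pool.Agent.Q158.SpecD

set_option autoImplicit false

open MeasureTheory FourierTransform
open scoped ContDiff

namespace Pool.Agent.Results.MP_1ad12f_an.WarpAffine

/-- `ℝ^d` -/
abbrev Sp (d : ℕ) : Type := EuclideanSpace ℝ (Fin d)

/-- `f` is (the continuous representative of) a bandlimited function: the inverse Fourier integral
of some `F ∈ L²(ℝ^d)` which vanishes outside a ball. -/
def IsBandlimited {d : ℕ} (f : Sp d → ℂ) : Prop :=
  ∃ F : Sp d → ℂ, MemLp F 2 (volume : Measure (Sp d)) ∧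
    (∃ R : ℝ, ∀ ξ : Sp d, R < ‖ξ‖ → F ξ = 0) ∧ f = 𝓕⁻ F

/-- The distributional Fourier transform `θ ↦ ∫ h · 𝓕 θ` of `h` is supported in a compact set:
it vanishes on all test functions `θ` whose support misses some compact set `K`. -/
def HasCompactSpectrum {d : ℕ} (h : Sp d → ℂ) : Prop :=
  ∃ K : Set (Sp d), IsCompact K ∧ ∀ θ : Sp d → ℂ, ContDiff ℝ ∞ θ → HasCompactSupport θ →
    Disjoint (tsupport θ) K → ∫ x, h x * 𝓕 θ x = 0

/-- A continuous bijection of `ℝ^d` maps (by composition) all bandlimited functions to functions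
with compactly supported Fourier transform if and only if it is affine. -/
theorem result : ∀ d : ℕ, 1 ≤ d → ∀ γ : Sp d → Sp d, Continuous γ → Function.Bijective γ →
    ((∀ f : Sp d → ℂ, IsBandlimited f → HasCompactSpectrum (f ∘ γ)) ↔
      ∃ (A : Sp d ≃ₗ[ℝ] Sp d) (b : Sp d), ∀ x, γ x = A x + b) := by
  intro d _ γ hγ hb
  exact Pool.Agent.Q158.Spec.main hγ hb.1

end Pool.Agent.Results.MP_1ad12f_an.WarpAffine
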